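import Pool.Agent.TH729.SQ.Tools

/-!
# Values of rational functions at rational points of products (helper729)
-/

set_option autoImplicit false

namespace Pool.Agent.TH729.SQ

open Set Filter Topology Pool.Agent.H581R2

/-- the real points given by rational points -/
def rl {n : Type} (D : Set (n → ℚ)) : Set (n → ℝ) := {x | ∃ r ∈ D, x = fun i => (r i : ℝ)}

lemma aeval_cast {n : Type} (r : n → ℚ) (p : MvPolynomial n ℚ) :
    (MvPolynomial.aeval (fun i => (r i : ℝ)) p : ℝ) = ((MvPolynomial.eval r p : ℚ) : ℝ) := by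
  induction p using MvPolynomial.induction_on with
  | C a => simp
  | add p q hp hq => simp [hp, hq]
  | mul_X p i hp => simp [hp]

/-- **closures of sets of values of rational functions on products** -/
theorem values_main {ι κ : Type} [Finite ι] [Finite κ] {n : Type} [Finite n]
    (D : ι → Set (n → ℚ)) (hD : ∀ j, SA (closure (rl (D j)))) {m : Type} [Finite m]
    (p : m → MvPolynomial ((ι × n) ⊕ κ) ℚ) (q : MvPolynomial ((ι × n) ⊕ κ) ℚ) :
    SA (closure {y : m → ℝ | ∃ (x : ι → n → ℚ) (u : κ → ℚ), (∀ j, x j ∈ D j) ∧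
      MvPolynomial.eval (Sum.elim (fun r => x r.1 r.2) u) q ≠ 0 ∧
      ∀ k, y k = ((MvPolynomial.eval (Sum.elim (fun r => x r.1 r.2) u) (p k) /
        MvPolynomial.eval (Sum.elim (fun r => x r.1 r.2) u) q : ℚ) : ℝ)}) := by
  classical
  set Y : Set (m → ℝ) := {y : m → ℝ | ∃ (x : ι → n → ℚ) (u : κ → ℚ), (∀ j, x j ∈ D j) ∧
      MvPolynomial.eval (Sum.elim (fun r => x r.1 r.2) u) q ≠ 0 ∧
      ∀ k, y k = ((MvPolynomial.eval (Sum.elim (fun r => x r.1 r.2) u) (p k) /
        MvPolynomial.eval (Sum.elim (fun r => x r.1 r.2) u) q : ℚ) : ℝ)} with hY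
  set Pw : Set ((ι × n) ⊕ κ → ℝ) := {w | ∀ j, (fun i => w (Sum.inl (j, i))) ∈
    closure (rl (D j))} with hPw
  have hPws : SA Pw := by
    refine SAP.forall_fin fun j => ?_
    exact SAP.preimage (p := fun v => v ∈ closure (rl (D j))) (hD j) (fun i => PF.coord _)
  set Im : Set (m → ℝ) := {y : m → ℝ | ∃ x ∈ Pw, MvPolynomial.aeval x q ≠ 0 ∧
      ∀ k, y k = MvPolynomial.aeval x (p k) / MvPolynomial.aeval x q} with hIm
  have hIms : SA Im := SA.image_rat hPws p q
  have hcl : closure Y = closure Im := by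
    apply Subset.antisymm
    · apply closure_mono
      rintro y ⟨x, u, hx, hq, hy⟩
      set r : (ι × n) ⊕ κ → ℚ := Sum.elim (fun r => x r.1 r.2) u with hr
      refine ⟨fun s => (r s : ℝ), fun j => subset_closure ⟨x j, hx j, rfl⟩, ?_, fun k => ?_⟩
      · rw [aeval_cast]
        exact_mod_cast hq
      · rw [aeval_cast, aeval_cast, hy k]
        push_cast
        rfl
    · refine closure_minimal ?_ isClosed_closure
      rintro y ⟨w, hw, hq, hy⟩
      -- approximation of `w` by rational tuples
      set A : Set ((ι → n → ℝ) × (κ → ℝ)) :=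
        (Set.pi univ fun j => rl (D j)) ×ˢ (range fun (u : κ → ℚ) k => (u k : ℝ)) with hA
      set Ψ : (ι → n → ℝ) × (κ → ℝ) → ((ι × n) ⊕ κ → ℝ) := fun a s =>
        Sum.elim (fun r : ι × n => a.1 r.1 r.2) a.2 s with hΨ
      have hΨc : Continuous Ψ := by
        refine continuous_pi fun s => ?_
        rcases s with s | s
        · exact (continuous_apply s.2).comp ((continuous_apply s.1).comp continuous_fst)
        · exact (continuous_apply s).comp continuous_snd
      have hdense : Dense (range fun (u : κ → ℚ) k => (u k : ℝ)) := by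
        have h1 : DenseRange (Pi.map fun _ : κ => ((↑) : ℚ → ℝ)) :=
          DenseRange.piMap fun _ => Rat.denseRange_cast
        exact h1
      have haA : ((fun j i => w (Sum.inl (j, i)), fun k => w (Sum.inr k)) :
          (ι → n → ℝ) × (κ → ℝ)) ∈ closure A := by
        rw [hA, closure_prod_eq, closure_pi_set]
        exact ⟨fun j _ => hw j, hdense _⟩
      have hw2 : w ∈ closure (Ψ '' A) := by
        have h1 := image_closure_subset_closure_image hΨc ⟨_, haA, rfl⟩
        have e : Ψ ((fun j i => w (Sum.inl (j, i)), fun k => w (Sum.inr k)) :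
          (ι → n → ℝ) × (κ → ℝ)) = w := by
          funext s
          rcases s with s | s <;> rfl
        rwa [e] at h1
      have hqo : IsOpen {w : (ι × n) ⊕ κ → ℝ | (MvPolynomial.aeval w q : ℝ) ≠ 0} :=
        isOpen_ne_fun (continuous_aeval q) continuous_const
      have hw3 : w ∈ closure ((Ψ '' A) ∩ {w | (MvPolynomial.aeval w q : ℝ) ≠ 0}) := by
        rw [mem_closure_iff_nhds] at hw2 ⊢
        intro t ht
        obtain ⟨z, hz1, hz2⟩ := hw2 _ (inter_mem ht (hqo.mem_nhds hq))
        exact ⟨z, hz1.1, hz2, hz1.2⟩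
      set φ : ((ι × n) ⊕ κ → ℝ) → m → ℝ := fun w k =>
        MvPolynomial.aeval w (p k) / MvPolynomial.aeval w q with hφ
      have hφc : ContinuousWithinAt φ ((Ψ '' A) ∩ {w | (MvPolynomial.aeval w q : ℝ) ≠ 0}) w := by
        refine ContinuousAt.continuousWithinAt (continuousAt_pi.2 fun k => ?_)
        exact (continuous_aeval (p k)).continuousAt.div (continuous_aeval q).continuousAt hq
      have hyφ : y = φ w := funext hy
      rw [hyφ]
      refine closure_mono ?_ (hφc.mem_closure_image hw3)
      rintro _ ⟨z, ⟨⟨a, ⟨ha1, ⟨u, hu⟩⟩, rfl⟩, hz⟩, rfl⟩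
      choose x hx hx2 using fun j => ha1 j (mem_univ j)
      have hza : Ψ a = fun s => ((Sum.elim (fun r : ι × n => x r.1 r.2) u s : ℚ) : ℝ) := by
        funext s
        rcases s with s | s
        · exact congrFun (hx2 s.1) s.2
        · exact (congrFun hu s).symm
      refine ⟨x, u, hx, ?_, fun k => ?_⟩
      · intro h0
        apply hz
        rw [hza, aeval_cast, h0, Rat.cast_zero]
      · change MvPolynomial.aeval (Ψ a) (p k) / MvPolynomial.aeval (Ψ a) q = _
        rw [hza, aeval_cast, aeval_cast]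
        push_cast
        rfl
  rw [hcl]
  exact SA.closure hIms

end Pool.Agent.TH729.SQ
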