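import Pool.Agent.TH729.SQ.Main

/-!
# Semialgebraic sets over `ℚ` have finitely many connected components (helper729)
-/

set_option autoImplicit false
set_option linter.unusedSimpArgs false
set_option linter.unusedTactic false
set_option linter.unusedSectionVars false

namespace Pool.Agent.TH729.SQ

open Set Filter Topology Pool.Agent.H581R2

variable {ι κ : Type}

/-- finitely many relatively clopen subsets -/
def FC {X : Type*} [TopologicalSpace X] (V : Set X) : Prop := {W : Set X | W ⊆ V ∧ LC V W}.Finite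

/-- a family of cells -/
structure CellData {α : Type} (V : Set (Option α → ℝ)) where
  /-- the base -/
  D : Set (α → ℝ)
  /-- a section -/
  s : (α → ℝ) → ℝ
  /-- the intervals -/
  I : (α → ℝ) → Set ℝ
  hs : PC D s
  hg : SAP (fun w : Option α → ℝ => (fun i => w (some i)) ∈ D ∧
      w none = s (fun i => w (some i)))
  hI1 : ∀ v ∈ D, s v ∈ I v
  hI2 : ∀ v ∈ D, (I v).OrdConnected
  hI3 : ∀ v ∈ D, ∀ t ∈ I v, ∀ t' ∈ I v, ext t v ∈ V → ext t' v ∈ V

/-- the region -/
def CellData.R {α : Type} {V : Set (Option α → ℝ)} (c : CellData V) : Set (Option α → ℝ) :=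
  {w | (fun i => w (some i)) ∈ c.D ∧ w none ∈ c.I (fun i => w (some i))}

theorem CellData.fin {α : Type} (IH : ∀ V : Set (α → ℝ), SA V → FC V)
    {V : Set (Option α → ℝ)} (hV : SA V) (c : CellData V) :
    {B | ∃ W, W ⊆ V ∧ LC V W ∧ B = W ∩ c.R}.Finite := by
  classical
  obtain ⟨D, s, I, hs, hg, hI1, hI2, hI3⟩ := c
  set D₁ : Set (α → ℝ) := {v | v ∈ D ∧ ext (s v) v ∈ V} with hD₁
  have hD₁s : SA D₁ := by
    refine SAP.congr (SAP.exists' (p := fun v t => (v ∈ D ∧ t = s v) ∧ ext t v ∈ V) ?_) ?_
    · refine hg.and ?_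
      exact SAP.congr (p := fun w => w ∈ V) hV fun w => by rw [ext_self]
    · intro v
      constructor
      · rintro ⟨h1, h2⟩
        exact ⟨s v, ⟨h1, rfl⟩, h2⟩
      · rintro ⟨t, ⟨h1, rfl⟩, h2⟩
        exact ⟨h1, h2⟩
  obtain ⟨T, hT, A, hA1, hA2, hA3⟩ := hs
  have hfin : (Set.pi univ fun τ : T => {B : Set (α → ℝ) | B ⊆ A τ ∩ D₁ ∧
      LC (A τ ∩ D₁) B}).Finite := by
    have := Fintype.ofFinite T
    exact Set.Finite.pi fun τ => IH _ ((hA1 τ).inter hD₁s)
  refine (hfin.image fun B => {w : Option α → ℝ | (fun i => w (some i)) ∈ D ∧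
    w none ∈ I (fun i => w (some i)) ∧ ∃ τ, (fun i => w (some i)) ∈ B τ}).subset ?_
  rintro _ ⟨W, hWV, hLC, rfl⟩
  refine ⟨fun τ => (A τ ∩ D₁) ∩ (fun v => ext (s v) v) ⁻¹' W, ?_, ?_⟩
  · intro τ _
    refine ⟨inter_subset_left, LC.inter_self ?_⟩
    refine hLC.comp ?_ fun v hv => hv.2.2
    have h1 : ContinuousOn s (A τ ∩ D₁) := (hA3 τ).mono fun v hv => ⟨hv.1, hv.2.1⟩
    exact continuous_ext.comp_continuousOn (h1.prodMk continuousOn_id)
  · ext w
    set v : α → ℝ := fun i => w (some i) with hv
    set t := w none with ht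
    have hw : w = ext t v := (ext_self w).symm
    have hconst : v ∈ D → t ∈ I v → ext t v ∈ V → (ext t v ∈ W ↔ ext (s v) v ∈ W) := by
      intro hvD htI htV
      have hsub : (fun t => ext t v) '' (I v) ⊆ V := by
        rintro _ ⟨t', ht', rfl⟩
        exact hI3 v hvD t htI t' ht' htV
      have hpre : IsPreconnected ((fun t => ext t v) '' (I v)) := by
        refine (hI2 v hvD).isPreconnected.image _ ?_
        exact (continuous_ext.comp (continuous_id.prodMk continuous_const)).continuousOn
      exact hLC.constant hpre hsub ⟨t, htI, rfl⟩ ⟨s v, hI1 v hvD, rfl⟩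
    constructor
    · rintro ⟨h1, h2, τ, ⟨hτ, -, h3⟩, h4⟩
      have h5 : ext t v ∈ V := hI3 v h1 (s v) (hI1 v h1) t h2 h3
      refine ⟨?_, h1, h2⟩
      rw [hw]
      exact (hconst h1 h2 h5).2 h4
    · rintro ⟨hwW, h1, h2⟩
      have h3 : ext t v ∈ V := by rw [← hw]; exact hWV hwW
      have h4 : ext (s v) v ∈ V := hI3 v h1 t h2 (s v) (hI1 v h1) h3
      obtain ⟨τ, hτ⟩ := mem_iUnion.1 (hA2 h1)
      refine ⟨h1, h2, τ, ⟨hτ, h1, h4⟩, ?_⟩
      rw [hw] at hwW
      exact (hconst h1 h2 h3).1 hwW

/-- the cells -/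
lemma exists_cells {α : Type} {V : Set (Option α → ℝ)} (hV : SA V) :
    ∃ (N : ℕ) (C : Fin 5 → ℕ → CellData V), ∀ w, ∃ i, ∃ k < N, w ∈ (C i k).R := by
  classical
  obtain ⟨Q, hQ⟩ := SA.iff hV
  choose Fq hFq using exists_univ (ι := α)
  set G : Finset (UP α) := Q.image Fq with hG
  -- membership in `V` is constant between the zeros
  have hVc : ∀ (v : α → ℝ) (I : Set ℝ), I.OrdConnected → (∀ z ∈ zset G v, z ∉ I) →
      ∀ t ∈ I, ∀ t' ∈ I, ext t v ∈ V → ext t' v ∈ V := by
    intro v I hI hno t ht t' ht' htV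
    refine (hQ (ext t v) (ext t' v) fun q hq => ?_).1 htV
    rw [hFq q v t, hFq q v t']
    by_cases hz : spec v (Fq q) = 0
    · simp [hz]
    · refine sign_const _ hI (fun x hx hx0 => hno x ?_ hx) ht ht'
      exact (Pool.Agent.H581R2.mem_zset _ _ _).2 ⟨Fq q, Finset.mem_image_of_mem _ hq, hz, hx0⟩
  have hφ : ∀ i : α, PF (fun w : Option α → ℝ => w (some i)) := fun i => PF.coord (some i)
  have hE : ∀ k, SA {v : α → ℝ | ∃ t, Rk G k v t} := fun k => SAP.exists' (sap_Rk G k)
  have hEp : ∀ k, SAP (fun w : Option α → ℝ => ∃ t, Rk G k (fun i => w (some i)) t) := fun k =>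
    SAP.preimage (p := fun v : α → ℝ => ∃ t, Rk G k v t) (hE k) hφ
  -- formulas with the zeros
  have hrt : ∀ (k : ℕ) (p : (Option (Option α) → ℝ) → Prop), SAP p →
      SAP (fun w : Option α → ℝ => (∃ t, Rk G k (fun i => w (some i)) t) ∧
        p (ext (rt G k (fun i => w (some i))) w)) := by
    intro k p hp
    refine SAP.congr (SAP.exists' (p := fun (w : Option α → ℝ) s =>
      Rk G k (fun i => w (some i)) s ∧ p (ext s w)) ?_) fun w => ?_
    · refine SAP.and ?_ ?_
      · exact (sap_Rk G k).preimage (φ := fun (u : Option (Option α) → ℝ) =>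
          ext (u none) (fun i => u (some (some i)))) (ext_PF (fun i => PF.coord _) (PF.coord _))
      · exact hp.congr fun u => by rw [ext_self]
    · constructor
      · rintro ⟨h1, h2⟩
        exact ⟨_, rt_spec h1, h2⟩
      · rintro ⟨s, h1, h2⟩
        refine ⟨⟨s, h1⟩, ?_⟩
        rwa [← rt_eq h1]
  -- the points
  let c1 : ℕ → CellData V := fun k =>
    { D := {v | ∃ t, Rk G k v t}
      s := rt G k
      I := fun v => {rt G k v}
      hs := pc_rt G k
      hg := hrt k (fun u => u (some none) = u none) (SAP.eq (PF.coord _) (PF.coord _))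
      hI1 := fun v _ => mem_singleton _
      hI2 := fun v _ => ordConnected_singleton
      hI3 := fun v _ t ht t' ht' h => by
        rw [mem_singleton_iff] at ht ht'
        rw [ht']
        rwa [ht] at h }
  -- no zeros at all
  let c2 : CellData V :=
    { D := {v : α → ℝ | ∀ t, t ∉ zset G v}
      s := fun _ => 0
      I := fun _ => univ
      hs := PC.of_cont continuous_const
      hg := by
        have hD : SAP (fun w : Option α → ℝ => ∀ t, t ∉ zset G (fun i => w (some i))) := by
          refine SAP.forall' (p := fun (w : Option α → ℝ) t =>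
            t ∉ zset G (fun i => w (some i))) ?_
          exact (SAP.mem_zset G (fun i => PF.coord (some (some i))) (PF.coord none)).not
        exact hD.and (SAP.eq (PF.coord _) PF.zero)
      hI1 := fun v _ => trivial
      hI2 := fun v _ => ordConnected_univ
      hI3 := fun v hv => hVc v univ ordConnected_univ fun z hz => absurd hz (hv z) }
  -- below the first zero
  let c3 : CellData V :=
    { D := {v | ∃ t, Rk G 0 v t}
      s := fun v => rt G 0 v - 1
      I := fun v => Iio (rt G 0 v)
      hs := (pc_rt G 0).map₂ (pc_rt G 0) (f := fun p => p.1 - 1) (by fun_prop)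
      hg := hrt 0 (fun u => u (some none) = u none - 1)
        (SAP.eq (PF.coord _) ((PF.coord _).sub PF.one))
      hI1 := by
        intro v _
        simp
      hI2 := fun v _ => ordConnected_Iio
      hI3 := by
        intro v hv
        refine hVc v _ ordConnected_Iio fun z hz hzI => ?_
        have := (rt_spec hv).2 z hz
        have := mem_Iio.1 hzI
        linarith }
  -- between two zeros
  have hlt : ∀ (k : ℕ) (v : α → ℝ), (∃ t, Rk G k v t) → (∃ t, Rk G (k + 1) v t) →
      rt G k v < rt G (k + 1) v ∧ ∀ z ∈ zset G v, rt G k v < z → rt G (k + 1) v ≤ z := by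
    intro k v h1 h2
    obtain ⟨-, s, hs, h3, h4⟩ := rt_spec h2
    rw [← rt_eq hs]
    exact ⟨h3, fun z hz => h4 z hz⟩
  have hrt2 : ∀ (k : ℕ) (p : (Option (Option (Option α)) → ℝ) → Prop), SAP p →
      SAP (fun w : Option α → ℝ =>
        (fun i => w (some i)) ∈ {v | (∃ t, Rk G k v t) ∧ ∃ t, Rk G (k + 1) v t} ∧
        p (ext (rt G (k + 1) (fun i => w (some i))) (ext (rt G k (fun i => w (some i))) w))) := by
    intro k p hp
    have h1 : SAP (fun u : Option (Option α) → ℝ =>
        (∃ t, Rk G (k + 1) (fun i => u (some (some i))) t) ∧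
        p (ext (rt G (k + 1) (fun i => u (some (some i)))) u)) := by
      refine SAP.congr (SAP.exists' (p := fun (u : Option (Option α) → ℝ) s =>
        Rk G (k + 1) (fun i => u (some (some i))) s ∧ p (ext s u)) ?_) fun w => ?_
      · refine SAP.and ?_ ?_
        · exact (sap_Rk G (k + 1)).preimage (φ := fun (u : Option (Option (Option α)) → ℝ) =>
            ext (u none) (fun i => u (some (some (some i)))))
            (ext_PF (fun i => PF.coord _) (PF.coord _))
        · exact hp.congr fun u => by rw [ext_self]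
      · constructor
        · rintro ⟨h1, h2⟩
          exact ⟨_, rt_spec h1, h2⟩
        · rintro ⟨s, h1, h2⟩
          refine ⟨⟨s, h1⟩, ?_⟩
          rwa [← rt_eq h1]
    refine (hrt k _ h1).congr fun w => ?_
    constructor
    · rintro ⟨⟨h2, h3⟩, h4⟩
      exact ⟨h2, h3, h4⟩
    · rintro ⟨h2, h3, h4⟩
      exact ⟨⟨h2, h3⟩, h4⟩
  let c4 : ℕ → CellData V := fun k =>
    { D := {v | (∃ t, Rk G k v t) ∧ ∃ t, Rk G (k + 1) v t}
      s := fun v => (rt G k v + rt G (k + 1) v) * ((1 / 2 : ℚ) : ℝ)
      I := fun v => Ioo (rt G k v) (rt G (k + 1) v)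
      hs := ((pc_rt G k).mono fun v hv => hv.1).map₂ ((pc_rt G (k + 1)).mono fun v hv => hv.2)
        (f := fun p => (p.1 + p.2) * ((1 / 2 : ℚ) : ℝ)) (by fun_prop)
      hg := hrt2 k (fun u => u (some (some none)) = (u (some none) + u none) * ((1 / 2 : ℚ) : ℝ))
        (SAP.eq (PF.coord _) (((PF.coord _).add (PF.coord _)).mul (PF.const _)))
      hI1 := by
        intro v hv
        have := (hlt k v hv.1 hv.2).1
        constructor
        · push_cast; linarith
        · push_cast; linarith
      hI2 := fun v _ => ordConnected_Ioo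
      hI3 := by
        intro v hv
        refine hVc v _ ordConnected_Ioo fun z hz hzI => ?_
        have := (hlt k v hv.1 hv.2).2 z hz hzI.1
        linarith [hzI.2] }
  -- above the last zero
  have hrt3 : ∀ (k : ℕ) (p : (Option (Option α) → ℝ) → Prop), SAP p →
      SAP (fun w : Option α → ℝ => (fun i => w (some i)) ∈
        {v | (∃ t, Rk G k v t) ∧ ∀ z, z ∈ zset G v → z ≤ rt G k v} ∧
        p (ext (rt G k (fun i => w (some i))) w)) := by
    intro k p hp
    have h1 : SAP (fun u : Option (Option α) → ℝ =>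
        (∀ z, z ∈ zset G (fun i => u (some (some i))) → z ≤ u none) ∧ p u) := by
      refine SAP.and ?_ hp
      refine SAP.forall' (p := fun (u : Option (Option α) → ℝ) z =>
        z ∈ zset G (fun i => u (some (some i))) → z ≤ u none) ?_
      exact (SAP.mem_zset G (fun i => PF.coord (some (some (some i)))) (PF.coord none)).imp
        (SAP.le (PF.coord _) (PF.coord _))
    refine (hrt k _ h1).congr fun w => ?_
    constructor
    · rintro ⟨⟨h2, h3⟩, h4⟩
      exact ⟨h2, h3, h4⟩
    · rintro ⟨h2, h3, h4⟩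
      exact ⟨⟨h2, h3⟩, h4⟩
  let c5 : ℕ → CellData V := fun k =>
    { D := {v | (∃ t, Rk G k v t) ∧ ∀ z, z ∈ zset G v → z ≤ rt G k v}
      s := fun v => rt G k v + 1
      I := fun v => Ioi (rt G k v)
      hs := ((pc_rt G k).mono fun v hv => hv.1).map₂ ((pc_rt G k).mono fun v hv => hv.1)
        (f := fun p => p.1 + 1) (by fun_prop)
      hg := hrt3 k (fun u => u (some none) = u none + 1)
        (SAP.eq (PF.coord _) ((PF.coord _).add PF.one))
      hI1 := by
        intro v _
        simp
      hI2 := fun v _ => ordConnected_Ioi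
      hI3 := by
        intro v hv
        refine hVc v _ ordConnected_Ioi fun z hz hzI => ?_
        have := hv.2 z hz
        have := mem_Ioi.1 hzI
        linarith }
  refine ⟨bd G + 1, ![c1, fun _ => c2, fun _ => c3, c4, c5], fun w => ?_⟩
  set v : α → ℝ := fun i => w (some i) with hv
  by_cases htZ : w none ∈ zset G v
  · obtain ⟨k, hk, hR⟩ := exists_Rk htZ
    exact ⟨0, k, by omega, ⟨_, hR⟩, rt_eq hR⟩
  · by_cases hemp : ∀ t, t ∉ zset G v
    · exact ⟨1, 0, by omega, hemp, trivial⟩
    · push Not at hemp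
      by_cases hbel : ∃ z ∈ zset G v, z < w none
      · -- the largest zero below
        have hne1 : ((zset G v).filter (· < w none)).Nonempty := by
          obtain ⟨z, hz, hz2⟩ := hbel
          exact ⟨z, Finset.mem_filter.2 ⟨hz, hz2⟩⟩
        set s := ((zset G v).filter (· < w none)).max' hne1 with hs
        have hsm : s ∈ (zset G v).filter (· < w none) := Finset.max'_mem _ _
        obtain ⟨hsZ, hst⟩ := Finset.mem_filter.1 hsm
        have hsmax : ∀ u ∈ zset G v, u < w none → u ≤ s := fun u hu hut =>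
          Finset.le_max' _ _ (Finset.mem_filter.2 ⟨hu, hut⟩)
        obtain ⟨k, hk, hR⟩ := exists_Rk hsZ
        have hsr := rt_eq hR
        by_cases habo : ∃ z ∈ zset G v, w none < z
        · have hne2 : ((zset G v).filter (w none < ·)).Nonempty := by
            obtain ⟨z, hz, hz2⟩ := habo
            exact ⟨z, Finset.mem_filter.2 ⟨hz, hz2⟩⟩
          set u := ((zset G v).filter (w none < ·)).min' hne2 with hu
          have hum : u ∈ (zset G v).filter (w none < ·) := Finset.min'_mem _ _
          obtain ⟨huZ, hut⟩ := Finset.mem_filter.1 hum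
          have humin : ∀ z ∈ zset G v, w none < z → u ≤ z := fun z hz hzt =>
            Finset.min'_le _ _ (Finset.mem_filter.2 ⟨hz, hzt⟩)
          have hR' : Rk G (k + 1) v u := by
            refine ⟨huZ, s, hR, hst.trans hut, fun z hz hsz => ?_⟩
            rcases lt_trichotomy z (w none) with h1 | h1 | h1
            · have := hsmax z hz h1
              linarith
            · rw [h1] at hz
              exact absurd hz htZ
            · exact humin z hz h1
          have hur := rt_eq hR'
          refine ⟨3, k, by omega, ⟨⟨_, hR⟩, ⟨_, hR'⟩⟩, ⟨?_, ?_⟩⟩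
          · change rt G k v < w none
            rw [← hsr]; exact hst
          · change w none < rt G (k + 1) v
            rw [← hur]; exact hut
        · push Not at habo
          refine ⟨4, k, by omega, ⟨⟨_, hR⟩, fun z hz => ?_⟩, ?_⟩
          · rw [← hsr]
            rcases lt_or_eq_of_le (habo z hz) with h1 | h1
            · exact hsmax z hz h1
            · rw [h1] at hz
              exact absurd hz htZ
          · change rt G k v < w none
            rw [← hsr]
            exact hst
      · push Not at hbel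
        obtain ⟨z₀, hz₀⟩ := hemp
        have hne3 : (zset G v).Nonempty := ⟨z₀, hz₀⟩
        have hR : Rk G 0 v ((zset G v).min' hne3) :=
          ⟨Finset.min'_mem _ _, fun s hs => Finset.min'_le _ _ hs⟩
        refine ⟨2, 0, by omega, ⟨_, hR⟩, ?_⟩
        change w none < rt G 0 v
        rw [← rt_eq hR]
        refine lt_of_le_of_ne (hbel _ hR.1) fun h => htZ ?_
        rw [h]
        exact hR.1

lemma fc_option {α : Type} (IH : ∀ V : Set (α → ℝ), SA V → FC V) {V : Set (Option α → ℝ)}
    (hV : SA V) : FC V := by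
  classical
  obtain ⟨N, C, hC⟩ := exists_cells hV
  have hfin : (Set.pi univ fun ik : Fin 5 × Fin N => {B | ∃ W, W ⊆ V ∧ LC V W ∧
      B = W ∩ (C ik.1 ik.2).R}).Finite :=
    Set.Finite.pi fun ik => (C ik.1 ik.2).fin IH hV
  refine (hfin.image fun B => ⋃ ik, B ik).subset ?_
  rintro W ⟨hWV, hLC⟩
  refine ⟨fun ik => W ∩ (C ik.1 ik.2).R, fun ik _ => ⟨W, hWV, hLC, rfl⟩, ?_⟩
  ext w
  simp only [mem_iUnion]
  constructor
  · rintro ⟨ik, h⟩
    exact h.1
  · intro hw
    obtain ⟨i, k, hk, h⟩ := hC w
    exact ⟨(i, ⟨k, hk⟩), hw, h⟩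

/-- **Semialgebraic sets over `ℚ` have only finitely many relatively clopen subsets.** -/
theorem fc_sa (ι : Type) [Finite ι] : ∀ V : Set (ι → ℝ), SA V → FC V := by
  induction ι using Finite.induction_empty_option with
  | of_equiv e h =>
    intro V hV
    have h1 := h ((fun v b => v (e.symm b)) ⁻¹' V) (SA.preimage hV fun b => PF.coord (e.symm b))
    have hsurj : Function.Surjective (fun (v : _ → ℝ) b => v (e.symm b)) := by
      intro w
      refine ⟨fun a => w (e a), ?_⟩
      funext b
      simp
    refine Set.Finite.of_finite_image (f := fun W => (fun v b => v (e.symm b)) ⁻¹' W)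
      (h1.subset ?_) (hsurj.preimage_injective.injOn)
    rintro _ ⟨W, ⟨hWV, hLC⟩, rfl⟩
    refine ⟨preimage_mono hWV, hLC.comp ?_ fun v hv => hv⟩
    exact (continuous_pi fun b => continuous_apply (e.symm b)).continuousOn
  | h_empty =>
    intro V _
    exact Set.toFinite _
  | h_option h => exact fun V hV => fc_option h hV

/-- finitely many clopen sets imply finitely many components -/
theorem finite_comp {X : Type*} [TopologicalSpace X] (h : {W : Set X | IsClopen W}.Finite) :
    Finite (ConnectedComponents X) := by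
  classical
  by_contra hinf
  have : Infinite (ConnectedComponents X) := not_finite_iff_infinite.1 hinf
  obtain ⟨U, hU1, hU2, hU3, -⟩ := ConnectedComponents.exists_fun_isClopen_of_infinite X (h.toFinset.card + 1) (by omega)
  have hinj : Function.Injective U := by
    intro i j hij
    by_contra hne
    have h1 : Disjoint (U i) (U j) := hU3 hne
    rw [hij, disjoint_self] at h1
    exact (hU2 j).ne_empty h1
  have hcard := Finset.card_le_card_of_injOn (s := Finset.univ) (t := h.toFinset) U
    (fun i _ => by simpa using hU1 i) hinj.injOn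
  simp at hcard

/-- **Semialgebraic sets over `ℚ` have finitely many connected components.** -/
theorem sa_comp {ι : Type} [Finite ι] {V : Set (ι → ℝ)} (hV : SA V) :
    Finite (ConnectedComponents V) := by
  refine finite_comp ?_
  refine Set.Finite.of_finite_image (f := fun W : Set V => (Subtype.val '' W : Set (ι → ℝ)))
    ((fc_sa ι V hV).subset ?_) (Subtype.val_injective.image_injective.injOn)
  rintro _ ⟨W, hW, rfl⟩
  refine ⟨by rintro _ ⟨x, -, rfl⟩; exact x.2, ?_⟩
  intro x hx
  rw [nhdsWithin_eq_map_subtype_coe hx, Filter.eventually_map]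
  by_cases hxW : (⟨x, hx⟩ : V) ∈ W
  · filter_upwards [hW.isOpen.mem_nhds hxW] with y hy
    exact ⟨fun _ => ⟨_, hxW, rfl⟩, fun _ => ⟨_, hy, rfl⟩⟩
  · filter_upwards [hW.compl.isOpen.mem_nhds hxW] with y hy
    constructor
    · rintro ⟨z, hz, hzy⟩
      exact absurd (Subtype.val_injective hzy ▸ hz) hy
    · rintro ⟨z, hz, hzx⟩
      have : z = ⟨x, hx⟩ := Subtype.val_injective hzx
      exact absurd (this ▸ hz) hxW

end Pool.Agent.TH729.SQ
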