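import Pool.Agent.TH729.SQ.Main

/-!
# Closures, images and products of semialgebraic sets over `ℚ` (helper729)
-/

set_option autoImplicit false

namespace Pool.Agent.TH729.SQ

open Set Filter Topology Pool.Agent.H581R2

/-- block elimination -/
theorem SAP.exists_fun (J : Type) [Finite J] : ∀ (ι : Type) (p : (J ⊕ ι → ℝ) → Prop), SAP p →
    SAP (fun v : ι → ℝ => ∃ u : J → ℝ, p (Sum.elim u v)) := by
  induction J using Finite.induction_empty_option with
  | @of_equiv α β e ih =>
    intro ι p hp
    have h1 : SAP (fun w : α ⊕ ι → ℝ => p (fun s => w (Sum.map e.symm id s))) :=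
      hp.preimage (φ := fun (w : α ⊕ ι → ℝ) s => w (Sum.map e.symm id s)) (fun s => PF.coord _)
    refine SAP.congr (ih ι _ h1) fun v => ?_
    have h2 : ∀ u : α → ℝ, (fun s => (Sum.elim u v : α ⊕ ι → ℝ) (Sum.map e.symm id s)) =
        Sum.elim (u ∘ e.symm) v := by
      intro u
      funext s
      rcases s with s | s <;> rfl
    simp only [h2]
    constructor
    · rintro ⟨u, hu⟩
      refine ⟨u ∘ e, ?_⟩
      have h4 : (u ∘ e) ∘ e.symm = u := by
        funext b
        simp
      rwa [h4]
    · rintro ⟨u, hu⟩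
      exact ⟨_, hu⟩
  | h_empty =>
    intro ι p hp
    have h1 : SAP (fun w : ι → ℝ => p (fun s => Sum.elim (fun x : PEmpty => x.elim) w s)) :=
      hp.preimage (φ := fun (w : ι → ℝ) s => Sum.elim (fun x : PEmpty => x.elim) w s) (fun s => by
        rcases s with s | s
        · exact s.elim
        · exact PF.coord _)
    refine SAP.congr h1 fun v => ?_
    constructor
    · rintro ⟨u, hu⟩
      have : u = fun x : PEmpty => x.elim := by
        funext x
        exact x.elim
      rw [this] at hu
      exact hu
    · intro h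
      exact ⟨_, h⟩
  | @h_option α _ ih =>
    intro ι p hp
    -- first the variables `α`, then the variable `none`
    have h1 : SAP (fun w : α ⊕ Option ι → ℝ => p (fun s => Sum.elim
        (fun o : Option α => o.elim (w (Sum.inr none)) (fun a => w (Sum.inl a)))
        (fun i => w (Sum.inr (some i))) s)) :=
      hp.preimage (φ := fun (w : α ⊕ Option ι → ℝ) s => Sum.elim
        (fun o : Option α => o.elim (w (Sum.inr none)) (fun a => w (Sum.inl a)))
        (fun i => w (Sum.inr (some i))) s) (fun s => by
        rcases s with (_ | s) | s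
        · exact PF.coord _
        · exact PF.coord _
        · exact PF.coord _)
    refine SAP.congr (SAP.exists_real (ih (Option ι) _ h1)) fun v => ?_
    constructor
    · rintro ⟨u, hu⟩
      refine ⟨u none, fun a => u (some a), ?_⟩
      have e : (fun s => Sum.elim (fun o : Option α => o.elim
          (Sum.elim (fun a => u (some a)) (ext (u none) v) (Sum.inr none)) (fun a =>
            Sum.elim (fun a => u (some a)) (ext (u none) v) (Sum.inl a)))
          (fun i => Sum.elim (fun a => u (some a)) (ext (u none) v) (Sum.inr (some i))) s) =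
          Sum.elim u v := by
        funext s
        rcases s with (_ | s) | s <;> rfl
      exact e ▸ hu
    · rintro ⟨t, u, hu⟩
      refine ⟨fun o => o.elim t u, ?_⟩
      have e : (fun s => Sum.elim (fun o : Option α => o.elim
          (Sum.elim u (ext t v) (Sum.inr none)) (fun a => Sum.elim u (ext t v) (Sum.inl a)))
          (fun i => Sum.elim u (ext t v) (Sum.inr (some i))) s) =
          Sum.elim (fun o : Option α => o.elim t u) v := by
        funext s
        rcases s with (_ | s) | s <;> rfl
      exact e ▸ hu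

lemma SAP.forall_fin {ι α : Type} [Finite α] {p : α → (ι → ℝ) → Prop}
    (h : ∀ a, SAP (p a)) : SAP (fun v => ∀ a, p a v) := by
  classical
  have := Fintype.ofFinite α
  exact SAP.congr (SAP.forall_mem Finset.univ fun a _ => h a) (by simp)

/-- **closures** -/
theorem SA.closure {ι : Type} [Finite ι] {S : Set (ι → ℝ)} (hS : SA S) : SA (closure S) := by
  have := Fintype.ofFinite ι
  have h1 : SAP (fun v : ι → ℝ => ∀ ε : ℝ, 0 < ε → ∃ u : ι → ℝ, u ∈ S ∧ ∀ i, v i - u i < ε ∧
      u i - v i < ε) := by
    refine SAP.forall' (p := fun (v : ι → ℝ) ε => 0 < ε → ∃ u : ι → ℝ, u ∈ S ∧ ∀ i, v i - u i < ε ∧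
      u i - v i < ε) ((SAP.pos (PF.coord _)).imp ?_)
    refine SAP.congr (SAP.exists_fun ι (Option ι) (fun w => (fun i => w (Sum.inl i)) ∈ S ∧
      ∀ i, w (Sum.inr (some i)) - w (Sum.inl i) < w (Sum.inr none) ∧
        w (Sum.inl i) - w (Sum.inr (some i)) < w (Sum.inr none)) ?_) fun v => Iff.rfl
    refine SAP.and ?_ (SAP.forall_fin fun i => ?_)
    · exact SAP.preimage (p := fun v => v ∈ S) hS (fun i => PF.coord _)
    · exact (SAP.lt ((PF.coord _).sub (PF.coord _)) (PF.coord _)).and
        (SAP.lt ((PF.coord _).sub (PF.coord _)) (PF.coord _))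
  refine SAP.congr (q := fun v => v ∈ _root_.closure S) h1 fun v => ?_
  rw [Metric.mem_closure_iff]
  refine forall_congr' fun ε => forall_congr' fun hε => exists_congr fun u => ?_
  refine and_congr_right fun _ => ?_
  rw [dist_pi_lt_iff hε]
  refine forall_congr' fun i => ?_
  rw [Real.dist_eq, abs_lt]
  constructor
  · rintro ⟨h1, h2⟩
    constructor <;> linarith
  · rintro ⟨h1, h2⟩
    constructor <;> linarith

/-- images under rational maps -/
theorem SA.image_rat {ι κ : Type} [Finite ι] [Finite κ] {S : Set (ι → ℝ)} (hS : SA S)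
    (p : κ → MvPolynomial ι ℚ) (q : MvPolynomial ι ℚ) :
    SA {y : κ → ℝ | ∃ x ∈ S, MvPolynomial.aeval x q ≠ 0 ∧
      ∀ k, y k = MvPolynomial.aeval x (p k) / MvPolynomial.aeval x q} := by
  refine SAP.congr (SAP.exists_fun ι κ (fun w => (fun i => w (Sum.inl i)) ∈ S ∧
    MvPolynomial.aeval (fun i => w (Sum.inl i)) q ≠ 0 ∧
    ∀ k, w (Sum.inr k) * MvPolynomial.aeval (fun i => w (Sum.inl i)) q =
      MvPolynomial.aeval (fun i => w (Sum.inl i)) (p k)) ?_) fun v => ?_
  · have hc : ∀ r : MvPolynomial ι ℚ, PF (fun w : ι ⊕ κ → ℝ =>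
        MvPolynomial.aeval (fun i => w (Sum.inl i)) r) := fun r =>
      (PF.aeval r).comp (φ := fun (w : ι ⊕ κ → ℝ) i => w (Sum.inl i)) (fun i => PF.coord _)
    refine SAP.and ?_ (SAP.and (SAP.eq_zero (hc q)).not (SAP.forall_fin fun k => ?_))
    · exact SAP.preimage (p := fun v => v ∈ S) hS (fun i => PF.coord _)
    · exact SAP.eq ((PF.coord _).mul (hc q)) (hc (p k))
  · refine exists_congr fun x => and_congr_right fun _ => and_congr_right fun hq => ?_
    exact forall_congr' fun k => eq_div_iff hq

/-- finite sets of rational points -/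
lemma SA.finite_rat {ι : Type} [Finite ι] {R : Set (ι → ℚ)} (hR : R.Finite) :
    SA {x : ι → ℝ | ∃ r ∈ R, ∀ i, x i = (r i : ℝ)} := by
  classical
  refine SAP.congr (SAP.exists_mem hR.toFinset (p := fun r x => ∀ i, x i = (r i : ℝ))
    fun r _ => SAP.forall_fin fun i => SAP.eq (PF.coord i) (PF.const (r i))) fun x => ?_
  simp

/-- semialgebraic sets over `ℚ`, the classical form -/
theorem SA.frozen {n : ℕ} {S : Set (Fin n → ℝ)} (h : SA S) :
    ∃ (m : ℕ) (P : Fin m → MvPolynomial (Fin n) ℚ) (G : Fin m → Finset (MvPolynomial (Fin n) ℚ)),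
      S = {x : Fin n → ℝ | ∃ j : Fin m, (MvPolynomial.aeval x (P j) : ℝ) = 0 ∧
        ∀ g ∈ G j, (0 : ℝ) < MvPolynomial.aeval x g} := by
  classical
  obtain ⟨Q, hQ⟩ := h
  let T := {τ : {q // q ∈ Q} → SignType // ∃ x ∈ S, ∀ q, SignType.sign
    (MvPolynomial.aeval x q.1 : ℝ) = τ q}
  have : Fintype T := Fintype.ofFinite T
  let e : Fin (Fintype.card T) ≃ T := (Fintype.equivFin T).symm
  refine ⟨Fintype.card T, fun j => ∑ q : {q // q ∈ Q}, if (e j).1 q = 0 then q.1 ^ 2 else 0,
    fun j => Finset.univ.image (fun q : {q // q ∈ Q} =>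
      if (e j).1 q = 0 then 1 else if (e j).1 q = 1 then q.1 else -q.1), ?_⟩
  have key : ∀ (τ : {q // q ∈ Q} → SignType) (x : Fin n → ℝ),
      (∀ q, SignType.sign (MvPolynomial.aeval x q.1 : ℝ) = τ q) ↔
      (MvPolynomial.aeval x (∑ q : {q // q ∈ Q}, if τ q = 0 then q.1 ^ 2 else 0) : ℝ) = 0 ∧
      ∀ q : {q // q ∈ Q}, (0 : ℝ) < MvPolynomial.aeval x
        (if τ q = 0 then 1 else if τ q = 1 then q.1 else -q.1) := by
    intro τ x
    have e1 : (MvPolynomial.aeval x (∑ q : {q // q ∈ Q}, if τ q = 0 then q.1 ^ 2 else 0) : ℝ) =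
        ∑ q : {q // q ∈ Q}, if τ q = 0 then (MvPolynomial.aeval x q.1 : ℝ) ^ 2 else 0 := by
      rw [map_sum]
      refine Finset.sum_congr rfl fun q _ => ?_
      split_ifs
      · rw [map_pow]
      · rw [map_zero]
    rw [e1, Finset.sum_eq_zero_iff_of_nonneg (fun q _ => by split_ifs <;> positivity)]
    constructor
    · intro h
      refine ⟨fun q _ => ?_, fun q => ?_⟩
      · by_cases h0 : τ q = 0
        · rw [if_pos h0]
          have := h q
          rw [h0, sign_eq_zero_iff] at this
          rw [this]
          norm_num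
        · rw [if_neg h0]
      · by_cases h0 : τ q = 0
        · rw [if_pos h0]
          simp
        · rw [if_neg h0]
          by_cases h1 : τ q = 1
          · rw [if_pos h1]
            have := h q
            rw [h1, sign_eq_one_iff] at this
            exact this
          · rw [if_neg h1]
            have h2 : τ q = -1 := by
              rcases h3 : τ q with _ | _ | _
              · exact absurd h3 h0
              · rfl
              · exact absurd h3 h1
            have := h q
            rw [h2, sign_eq_neg_one_iff] at this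
            rw [map_neg]
            linarith
    · rintro ⟨h1, h2⟩ q
      have h3 := h1 q (Finset.mem_univ _)
      have h4 := h2 q
      by_cases h0 : τ q = 0
      · rw [if_pos h0] at h3
        rw [h0, sign_eq_zero_iff]
        exact pow_eq_zero_iff (two_ne_zero) |>.1 h3
      · rw [if_neg h0] at h4
        by_cases h5 : τ q = 1
        · rw [if_pos h5] at h4
          rw [h5, sign_eq_one_iff]
          exact h4
        · rw [if_neg h5] at h4
          have h6 : τ q = -1 := by
            rcases h3 : τ q with _ | _ | _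
            · exact absurd h3 h0
            · rfl
            · exact absurd h3 h5
          rw [h6, sign_eq_neg_one_iff]
          rw [map_neg] at h4
          linarith
  ext x
  simp only [mem_ofPred_eq, Finset.mem_image, Finset.mem_univ, true_and,
    forall_exists_index, forall_apply_eq_imp_iff]
  constructor
  · intro hx
    let τ : T := ⟨fun q => SignType.sign (MvPolynomial.aeval x q.1 : ℝ), x, hx, fun q => rfl⟩
    refine ⟨e.symm τ, ?_⟩
    rw [e.apply_symm_apply]
    exact (key τ.1 x).1 fun q => rfl
  · rintro ⟨j, hj⟩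
    have h1 := (key _ x).2 hj
    obtain ⟨y, hy, hy2⟩ := (e j).2
    exact hQ y x (fun q hq => by rw [hy2 ⟨q, hq⟩, h1 ⟨q, hq⟩]) hy

end Pool.Agent.TH729.SQ
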