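import Pool.Agent.TH729.SQ.Tools
import Pool.Agent.W279.TriR.Final

/-!
# The closure of the rational points of a (2,2,2)-surface (helper729)
-/

set_option autoImplicit false

namespace Pool.Agent.TH729.SQ

open Set Filter Topology Pool.Agent.H581R2 Pool.Agent.W279.Tri Pool.Agent.W279.TriR

/-- a point with algebraic coordinates is semialgebraic over `ℚ` -/
lemma SA.point {κ : Type} [Finite κ] {a : κ → ℝ} (ha : ∀ k, IsAlgebraic ℚ (a k)) :
    SA ({a} : Set (κ → ℝ)) := by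
  classical
  have := Fintype.ofFinite κ
  set Z : Set (κ → ℝ) := {u | ∀ k, Polynomial.aeval (u k) (minpoly ℚ (a k)) = 0} with hZ
  have hZf : Z.Finite := by
    have h1 : Z ⊆ Set.pi univ fun k => {t : ℝ | Polynomial.aeval t (minpoly ℚ (a k)) = 0} :=
      fun u hu k _ => hu k
    refine (Set.Finite.pi fun k => ?_).subset h1
    have h2 : minpoly ℚ (a k) ≠ 0 := minpoly.ne_zero (ha k).isIntegral
    have h3 : (minpoly ℚ (a k)).map (algebraMap ℚ ℝ) ≠ 0 :=
      (Polynomial.map_ne_zero_iff (algebraMap ℚ ℝ).injective).2 h2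
    refine ((minpoly ℚ (a k)).map (algebraMap ℚ ℝ)).roots.toFinset.finite_toSet.subset ?_
    intro t ht
    simp only [Finset.mem_coe, Multiset.mem_toFinset, Polynomial.mem_roots h3,
      Polynomial.IsRoot.def, Polynomial.eval_map_algebraMap]
    exact ht
  have hZs : SA Z := by
    refine SAP.forall_fin fun k => SAP.eq_zero ?_
    refine ⟨Polynomial.aeval (MvPolynomial.X k) (minpoly ℚ (a k)), fun v => ?_⟩
    rw [← Polynomial.aeval_algHom_apply, MvPolynomial.aeval_X]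
  refine sa_of_lc κ Z {a} hZs ?_ ?_
  · intro u hu k
    rw [mem_singleton_iff.1 hu]
    exact minpoly.aeval ℚ (a k)
  · intro x hx
    have h3 : Z ∩ {x} ∈ 𝓝[Z] x := by
      have h4 : IsClosed (Z \ {x}) := (hZf.subset sdiff_subset).isClosed
      have h5 : (Z \ {x})ᶜ ∈ 𝓝 x := h4.isOpen_compl.mem_nhds (fun h => h.2 rfl)
      filter_upwards [self_mem_nhdsWithin, nhdsWithin_le_nhds h5] with y hy hy2
      refine ⟨hy, ?_⟩
      by_contra hne
      exact hy2 ⟨hy, hne⟩
    filter_upwards [h3] with y hy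
    rw [mem_singleton_iff.1 hy.2]

/-- algebraic parameters -/
lemma SA.of_param {ι κ : Type} [Finite κ] {S : Set (κ ⊕ ι → ℝ)} (hS : SA S) {a : κ → ℝ}
    (ha : ∀ k, IsAlgebraic ℚ (a k)) : SA {v : ι → ℝ | Sum.elim a v ∈ S} := by
  refine SAP.congr (SAP.exists_fun κ ι (fun w => (fun k => w (Sum.inl k)) ∈ ({a} : Set (κ → ℝ)) ∧
    w ∈ S) ?_) fun v => ?_
  · exact (SAP.preimage (p := fun v => v ∈ ({a} : Set (κ → ℝ))) (SA.point ha)
      (fun i => PF.coord _)).and hS
  · constructor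
    · intro h
      exact ⟨a, rfl, h⟩
    · rintro ⟨u, hu, h⟩
      have : u = a := hu
      rw [this] at h
      exact h

variable {K : Type*} [Field K] {c : Fin 3 → Fin 3 → Fin 3 → K} {σ : K →+* ℝ}

/-- the smooth real points of the affine surface -/
def Vs (c : Fin 3 → Fin 3 → Fin 3 → ℝ) : Set (Fin 3 → ℝ) :=
  {x | E c (af x 0) (af x 1) (af x 2) = 0 ∧ ¬SingX c (af x 0) (af x 1) (af x 2)}

/-- the interior part -/
def W1 (c : Fin 3 → Fin 3 → Fin 3 → K) (σ : K →+* ℝ) : Set (Fin 3 → ℝ) :=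
  {x | x ∈ Vs (cr c σ) ∧ af x ∈ Int' c σ}

lemma lc_W1 (hd : ∀ P : Fin 3 → Fin 2 → ℝ, (∀ i, P i ≠ 0) →
      E (cr c σ) (P 0) (P 1) (P 2) = 0 → ¬SingX (cr c σ) (P 0) (P 1) (P 2) →
        P ∈ Cl c σ → P ∈ Int' c σ ∨ ∃ P₀ : Fin 3 → Fin 2 → K, P ∈ Iso c σ P₀) :
    LC (Vs (cr c σ)) (W1 c σ) := by
  refine LC.of_clopen (O := af ⁻¹' (Int' c σ)) (C := closure (W1 c σ))
    (isOpen_Int.preimage continuous_af) isClosed_closure ?_ ?_
  · intro x hx
    exact ⟨fun h => h.2, fun h => ⟨hx, h⟩⟩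
  · intro x hx
    refine ⟨fun h => subset_closure h, fun h => ⟨hx, ?_⟩⟩
    refine closed_Int (af_ne x) (hd _ (af_ne x) hx.1 hx.2) ?_
    have h1 : af x ∈ closure (af '' (W1 c σ)) :=
      image_closure_subset_closure_image continuous_af ⟨x, h, rfl⟩
    refine closure_mono ?_ h1
    rintro _ ⟨y, hy, rfl⟩
    exact ⟨hy.2, hy.1.1, af_ne y⟩

lemma af_map (r : Fin 3 → K) (i : Fin 3) :
    (fun a => σ (af r i a)) = af (fun i => σ (r i)) i := by
  funext a
  fin_cases a <;> simp [af]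

lemma E_af_map (r : Fin 3 → K) :
    E (cr c σ) (af (fun i => σ (r i)) 0) (af (fun i => σ (r i)) 1) (af (fun i => σ (r i)) 2) =
      σ (E c (af r 0) (af r 1) (af r 2)) := by
  rw [← E_cr]
  simp only [af_map]

lemma eval₂_map_pt {κ R S : Type*} [CommRing R] [CommRing S] (σ : R →+* S) (g : κ → R)
    (p : MvPolynomial κ R) :
    MvPolynomial.eval₂ σ (fun k => σ (g k)) p = σ (MvPolynomial.eval g p) := by
  rw [MvPolynomial.eval, MvPolynomial.coe_eval₂Hom, MvPolynomial.eval₂_comp_left]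
  rfl

/-- the rational singular points of the affine surface are finite in number -/
lemma sing_finite (h : Nice c) (σ : K →+* ℝ) :
    {r : Fin 3 → K | SingX (cr c σ) (af (fun i => σ (r i)) 0) (af (fun i => σ (r i)) 1)
      (af (fun i => σ (r i)) 2)}.Finite := by
  obtain ⟨S, hS, hS'⟩ := h.s
  set A := AlgebraicClosure K
  have hinj : Function.Injective fun (r : Fin 3 → K) (i : Fin 3) => algebraMap K A (r i) := by
    intro r r' h
    funext i
    exact (algebraMap K A).injective (congrFun h i)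
  refine Set.Finite.subset (((hS.image fun s => fun i => s i 0 / s i 1)).preimage hinj.injOn) ?_
  intro r hr
  have h1 := (singX_real c σ (af fun i => σ (r i))).1 hr
  have h2 : ∀ q, MvPolynomial.eval (fun p : Fin 3 × Fin 2 => af r p.1 p.2)
      (MvPolynomial.pderiv q (form c)) = 0 := by
    intro q
    have h3 := h1 q
    have e : (fun p : Fin 3 × Fin 2 => af (fun i => σ (r i)) p.1 p.2) =
        fun p => σ ((fun p : Fin 3 × Fin 2 => af r p.1 p.2) p) := by
      funext p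
      rw [← af_map]
    rw [e, eval₂_map_pt] at h3
    exact (map_eq_zero σ).1 h3
  have h4 : SingX (fun i j k => algebraMap K A (c i j k)) (fun a => algebraMap K A (af r 0 a))
      (fun a => algebraMap K A (af r 1 a)) (fun a => algebraMap K A (af r 2 a)) := by
    rw [singX_iff (algebraMap K A)]
    intro q
    have e : (fun p : Fin 3 × Fin 2 => (![fun a => algebraMap K A (af r 0 a),
        fun a => algebraMap K A (af r 1 a), fun a => algebraMap K A (af r 2 a)] :
          Fin 3 → Fin 2 → A) p.1 p.2) =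
        fun p => algebraMap K A ((fun p : Fin 3 × Fin 2 => af r p.1 p.2) p) := by
      funext ⟨i, a⟩
      fin_cases i <;> rfl
    rw [MvPolynomial.coe_eval₂Hom, e, eval₂_map_pt, h2, map_zero]
  obtain ⟨s, hs, hs'⟩ := hS' _ _ _ (map_ne (algebraMap K A) (af_ne r 0))
    (map_ne (algebraMap K A) (af_ne r 1)) (map_ne (algebraMap K A) (af_ne r 2)) h4
  refine ⟨s, hs, ?_⟩
  funext i
  obtain ⟨t, ht⟩ := hs' i
  have e0 : algebraMap K A (r i) = t * s i 0 := by
    have := congrFun ht 0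
    fin_cases i <;> simpa [af] using this
  have e1 : 1 = t * s i 1 := by
    have := congrFun ht 1
    fin_cases i <;> simpa [af] using this
  have hs1 : s i 1 ≠ 0 := fun h0 => by rw [h0, mul_zero] at e1; exact one_ne_zero e1
  simp only
  rw [e0, div_eq_iff hs1]
  calc s i 0 = s i 0 * 1 := (mul_one _).symm
    _ = s i 0 * (t * s i 1) := by rw [← e1]
    _ = _ := by ring

/-- the exceptional points as affine points -/
def affT (T : Set (Fin 3 → Fin 2 → K)) : Set (Fin 3 → K) :=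
  {r | ∃ P ∈ T, (∀ i, P i 1 ≠ 0) ∧ r = fun i => P i 0 / P i 1}

lemma affT_finite {T : Set (Fin 3 → Fin 2 → K)} (hT : T.Finite) : (affT T).Finite := by
  refine (hT.image fun P => fun i => P i 0 / P i 1).subset ?_
  rintro r ⟨P, hP, -, rfl⟩
  exact ⟨P, hP, rfl⟩

lemma iso_aff {x : Fin 3 → ℝ} {P₀ : Fin 3 → Fin 2 → K} (h : af x ∈ Iso c σ P₀) :
    (∀ i, P₀ i 1 ≠ 0) ∧ x = fun i => σ (P₀ i 0 / P₀ i 1) := by
  obtain ⟨hI, -⟩ := h
  have hP1 : ∀ i, P₀ i 1 ≠ 0 := by
    intro i h0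
    obtain ⟨t, -, ht⟩ := hI i
    have := congrFun ht 1
    simp [af, h0] at this
  refine ⟨hP1, ?_⟩
  funext i
  obtain ⟨t, ht0, ht⟩ := hI i
  have e0 := congrFun ht 0
  have e1 := congrFun ht 1
  simp only [af, Matrix.cons_val_zero, Matrix.cons_val_one, Pi.smul_apply,
    smul_eq_mul] at e0 e1
  have h5 : σ (P₀ i 1) ≠ 0 := (map_ne_zero σ).2 (hP1 i)
  rw [map_div₀, e0, eq_div_iff h5]
  linear_combination (-σ (P₀ i 0)) * e1

lemma PF.congr {ι : Type} {f g : (ι → ℝ) → ℝ} (hf : PF f) (h : ∀ v, g v = f v) : PF g := by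
  have : g = f := funext h
  rwa [this]

lemma PF.mon {ι : Type} {x : (ι → ℝ) → Fin 2 → ℝ} (hx : ∀ a, PF (fun w => x w a)) (j : Fin 3) :
    PF (fun w => Pool.Agent.W279.Tri.mon (x w) j) := by
  fin_cases j
  · exact (hx 0).pow 2
  · exact (hx 0).mul (hx 1)
  · exact (hx 1).pow 2

lemma PF.dmon {ι : Type} {x : (ι → ℝ) → Fin 2 → ℝ} (hx : ∀ a, PF (fun w => x w a)) (a : Fin 2)
    (j : Fin 3) : PF (fun w => Pool.Agent.W279.Tri.dmon a (x w) j) := by
  fin_cases a <;> fin_cases j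
  · exact PF.congr ((PF.constNat 2).mul (hx 0)) (by intro w; simp [Pool.Agent.W279.Tri.dmon])
  · exact PF.congr (hx 1) (by intro w; simp [Pool.Agent.W279.Tri.dmon])
  · exact PF.congr PF.zero (by intro w; simp [Pool.Agent.W279.Tri.dmon])
  · exact PF.congr PF.zero (by intro w; simp [Pool.Agent.W279.Tri.dmon])
  · exact PF.congr (hx 0) (by intro w; simp [Pool.Agent.W279.Tri.dmon])
  · exact PF.congr ((PF.constNat 2).mul (hx 1)) (by intro w; simp [Pool.Agent.W279.Tri.dmon])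

lemma PF.T3 {ι : Type} {c : (ι → ℝ) → Fin 3 → Fin 3 → Fin 3 → ℝ} {p q r : (ι → ℝ) → Fin 3 → ℝ}
    (hc : ∀ i j k, PF (fun w => c w i j k)) (hp : ∀ i, PF (fun w => p w i))
    (hq : ∀ i, PF (fun w => q w i)) (hr : ∀ i, PF (fun w => r w i)) :
    PF (fun w => Pool.Agent.W279.Tri.T3 (c w) (p w) (q w) (r w)) := by
  refine PF.sum Finset.univ fun i _ => PF.sum Finset.univ fun j _ => PF.sum Finset.univ fun k _ => ?_
  exact (hc i j k).mul ((hp i).mul ((hq j).mul (hr k)))

/-- the smooth real points form a semialgebraic set over `ℚ` -/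
lemma sa_Vs [NumberField K] (c : Fin 3 → Fin 3 → Fin 3 → K) (σ : K →+* ℝ) :
    SA (Vs (cr c σ)) := by
  classical
  set S : Set ((Fin 3 × Fin 3 × Fin 3) ⊕ Fin 3 → ℝ) :=
    {w | (fun i => w (Sum.inr i)) ∈ Vs (fun i j k => w (Sum.inl (i, j, k)))} with hSdef
  have paf : ∀ (i : Fin 3) (a : Fin 2),
      PF (fun w : (Fin 3 × Fin 3 × Fin 3) ⊕ Fin 3 → ℝ => af (fun i => w (Sum.inr i)) i a) := by
    intro i a
    fin_cases a
    · exact PF.coord (Sum.inr i)
    · exact PF.one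
  have hS : SA S := by
    refine SAP.and ?_ (SAP.not ?_)
    · refine SAP.eq_zero ?_
      refine PF.congr (PF.T3 (c := fun w i j k => w (Sum.inl (i, j, k)))
        (fun i j k => PF.coord _) (PF.mon (paf 0)) (PF.mon (paf 1)) (PF.mon (paf 2))) ?_
      intro w
      exact E_eq_T3 _ _ _ _
    · refine SAP.and (SAP.forall_fin fun a => SAP.eq_zero ?_)
        (SAP.and (SAP.forall_fin fun a => SAP.eq_zero ?_)
          (SAP.forall_fin fun a => SAP.eq_zero ?_))
      · exact PF.T3 (c := fun w i j k => w (Sum.inl (i, j, k)))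
          (fun i j k => PF.coord _) (PF.dmon (paf 0) a) (PF.mon (paf 1)) (PF.mon (paf 2))
      · exact PF.T3 (c := fun w i j k => w (Sum.inl (i, j, k)))
          (fun i j k => PF.coord _) (PF.mon (paf 0)) (PF.dmon (paf 1) a) (PF.mon (paf 2))
      · exact PF.T3 (c := fun w i j k => w (Sum.inl (i, j, k)))
          (fun i j k => PF.coord _) (PF.mon (paf 0)) (PF.mon (paf 1)) (PF.dmon (paf 2) a)
  have halg : ∀ p : Fin 3 × Fin 3 × Fin 3, IsAlgebraic ℚ (cr c σ p.1 p.2.1 p.2.2) := by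
    intro p
    have h1 : IsAlgebraic ℚ (c p.1 p.2.1 p.2.2) := Algebra.IsAlgebraic.isAlgebraic _
    exact h1.algHom (RingHom.equivRatAlgHom K ℝ σ)
  have := SA.of_param hS (a := fun p : Fin 3 × Fin 3 × Fin 3 => cr c σ p.1 p.2.1 p.2.2) halg
  exact this

lemma sa_points [NumberField K] (σ : K →+* ℝ) {R : Set (Fin 3 → K)} (hR : R.Finite) :
    SA ((fun (r : Fin 3 → K) (i : Fin 3) => σ (r i)) '' R) := by
  classical
  have h : SAP (fun x : Fin 3 → ℝ => ∃ r ∈ hR.toFinset, x ∈ ({fun i => σ (r i)} :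
      Set (Fin 3 → ℝ))) := by
    refine SAP.exists_mem _ fun r _ => SA.point fun k => ?_
    have h1 : IsAlgebraic ℚ (r k) := Algebra.IsAlgebraic.isAlgebraic _
    exact h1.algHom (RingHom.equivRatAlgHom K ℝ σ)
  refine h.congr fun x => ?_
  constructor
  · rintro ⟨r, hr, rfl⟩
    exact ⟨r, hR.mem_toFinset.2 hr, rfl⟩
  · rintro ⟨r, hr, hx⟩
    exact ⟨r, hR.mem_toFinset.1 hr, hx.symm⟩

/-- **The closure of the `K`-rational points of a (2,2,2)-surface.** -/
theorem tri_main [NumberField K] (h : Nice c) :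
    ∃ T : Set (Fin 3 → K), T.Finite ∧ (∀ r ∈ T, E c (af r 0) (af r 1) (af r 2) = 0) ∧
      ∀ σ : K →+* ℝ, SA (closure (VK c σ)) ∧
        ∀ x ∈ closure (VK c σ), x ∈ Vs (cr c σ) → (∃ r ∈ T, x = fun i => σ (r i)) ∨
          connectedComponentIn (Vs (cr c σ)) x ⊆ closure (VK c σ) := by
  obtain ⟨T, hT, hT1, hdich⟩ := dichotomy h
  refine ⟨affT T, affT_finite hT, ?_, fun σ => ?_⟩
  · rintro r ⟨P, hP, hP1, rfl⟩
    exact E_of_vec hP1 (hT1 P hP).2
  have hLC : LC (Vs (cr c σ)) (W1 c σ) := lc_W1 fun P hP hE hs hC => by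
    rcases hdich σ P hP hE hs hC with h | ⟨P₀, -, h⟩
    · exact Or.inl h
    · exact Or.inr ⟨P₀, h⟩
  have hW1 : SA (W1 c σ) := sa_of_lc _ _ _ (sa_Vs c σ) (fun x hx => hx.1) hLC
  have hW1sub : W1 c σ ⊆ closure (VK c σ) := by
    rintro x ⟨hx, hI⟩
    exact af_mem_Cl.1 (Int_sub hI hx.1)
  have hdi : ∀ x ∈ closure (VK c σ), x ∈ Vs (cr c σ) →
      x ∈ W1 c σ ∨ x ∈ (fun (r : Fin 3 → K) (i : Fin 3) => σ (r i)) '' affT T := by
    intro x hx hxV
    rcases hdich σ (af x) (af_ne x) hxV.1 hxV.2 (af_mem_Cl.2 hx) with h1 | ⟨P₀, hP₀, h1⟩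
    · exact Or.inl ⟨hxV, h1⟩
    · obtain ⟨h2, h3⟩ := iso_aff h1
      exact Or.inr ⟨_, ⟨P₀, hP₀, h2, rfl⟩, h3.symm⟩
  set R : Set (Fin 3 → K) := {r ∈ affT T ∪ {r : Fin 3 → K | SingX (cr c σ)
    (af (fun i => σ (r i)) 0) (af (fun i => σ (r i)) 1) (af (fun i => σ (r i)) 2)} |
      E c (af r 0) (af r 1) (af r 2) = 0} with hR
  have hRf : R.Finite := ((affT_finite hT).union (sing_finite h σ)).subset fun r hr => hr.1
  have hcl : closure (VK c σ) = closure (W1 c σ) ∪
      (fun (r : Fin 3 → K) (i : Fin 3) => σ (r i)) '' R := by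
    apply Subset.antisymm
    · refine closure_minimal ?_ (isClosed_closure.union (hRf.image _).isClosed)
      rintro x ⟨r, hr, rfl⟩
      by_cases hs : SingX (cr c σ) (af (fun i => σ (r i)) 0) (af (fun i => σ (r i)) 1)
        (af (fun i => σ (r i)) 2)
      · exact Or.inr ⟨r, ⟨Or.inr hs, hr⟩, rfl⟩
      · have hE0 : E (cr c σ) (af (fun i => σ (r i)) 0) (af (fun i => σ (r i)) 1)
            (af (fun i => σ (r i)) 2) = 0 := by rw [E_af_map, hr, map_zero]
        rcases hdi _ (subset_closure ⟨r, hr, rfl⟩) ⟨hE0, hs⟩ with h1 | ⟨r', hr', h1⟩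
        · exact Or.inl (subset_closure h1)
        · refine Or.inr ⟨r, ⟨Or.inl ?_, hr⟩, rfl⟩
          have : r' = r := by
            funext i
            exact σ.injective (congrFun h1 i)
          rwa [← this]
    · apply union_subset
      · exact closure_minimal hW1sub isClosed_closure
      · rintro _ ⟨r, hr, rfl⟩
        exact subset_closure ⟨r, hr.2, rfl⟩
  constructor
  · rw [hcl]
    exact SA.union (SA.closure hW1) (sa_points σ hRf)
  · intro x hx hxV
    rcases hdi x hx hxV with h1 | ⟨r, hr, h1⟩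
    · right
      intro y hy
      have hsub := connectedComponentIn_subset (Vs (cr c σ)) x
      have := (hLC.constant isPreconnected_connectedComponentIn hsub
        (mem_connectedComponentIn hxV) hy).1 h1
      exact hW1sub this
    · exact Or.inl ⟨r, hr, h1.symm⟩

end Pool.Agent.TH729.SQ
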