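import Pool.Agent.TH729.SQ.Cell

/-!
# Relatively clopen subsets of semialgebraic sets: the induction (helper729)
-/

set_option autoImplicit false

namespace Pool.Agent.TH729.SQ

open Polynomial Set Filter Topology Pool.Agent.H581R2

lemma SA.reindex {α β : Type} (e : α ≃ β) {S : Set (β → ℝ)}
    (h : SA ((fun (v : α → ℝ) => v ∘ e.symm) ⁻¹' S)) : SA S := by
  have h1 := SA.preimage (φ := fun (w : β → ℝ) (a : α) => w (e a)) h (fun a => PF.coord (e a))
  have e1 : (fun (w : β → ℝ) (a : α) => w (e a)) ⁻¹' ((fun (v : α → ℝ) => v ∘ e.symm) ⁻¹' S) = S := by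
    ext w
    simp only [mem_preimage]
    have : (fun a => w (e a)) ∘ e.symm = w := by
      funext b
      simp
    rw [this]
  rwa [e1] at h1

/-- the statement for the index type `ι` -/
def St (ι : Type) : Prop := ∀ V W : Set (ι → ℝ), SA V → W ⊆ V → LC V W → SA W

lemma st_option {α : Type} (IH : St α) : St (Option α) := by
  classical
  intro V W hV hWV hLC
  obtain ⟨Q, hQ⟩ := SA.iff hV
  choose Fq hFq using exists_univ (ι := α)
  set G : Finset (UP α) := Q.image Fq with hG
  -- membership in `V` is constant between the zeros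
  have hVc : ∀ (v : α → ℝ) (I : Set ℝ), I.OrdConnected → (∀ z ∈ zset G v, z ∉ I) →
      ∀ t ∈ I, ∀ t' ∈ I, ext t v ∈ V → ext t' v ∈ V := by
    intro v I hI hno t ht t' ht' htV
    refine (hQ (ext t v) (ext t' v) fun q hq => ?_).1 htV
    rw [hFq q v t, hFq q v t']
    by_cases hz : spec v (Fq q) = 0
    · simp [hz]
    · refine sign_const _ hI (fun x hx hx0 => hno x ?_ hx) ht ht'
      exact (Pool.Agent.H581R2.mem_zset _ _ _).2 ⟨Fq q, Finset.mem_image_of_mem _ hq, hz, hx0⟩
  have hφ : ∀ i : α, PF (fun w : Option α → ℝ => w (some i)) := fun i => PF.coord (some i)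
  have hE : ∀ k, SA {v : α → ℝ | ∃ t, Rk G k v t} := fun k => SAP.exists' (sap_Rk G k)
  have hEp : ∀ k, SAP (fun w : Option α → ℝ => ∃ t, Rk G k (fun i => w (some i)) t) := fun k =>
    SAP.preimage (p := fun v : α → ℝ => ∃ t, Rk G k v t) (hE k) hφ
  -- formulas with the zeros
  have hrt : ∀ (k : ℕ) (p : (Option (Option α) → ℝ) → Prop), SAP p →
      SAP (fun w : Option α → ℝ => (∃ t, Rk G k (fun i => w (some i)) t) ∧
        p (ext (rt G k (fun i => w (some i))) w)) := by
    intro k p hp
    refine SAP.congr (SAP.exists' (p := fun (w : Option α → ℝ) s =>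
      Rk G k (fun i => w (some i)) s ∧ p (ext s w)) ?_) fun w => ?_
    · refine SAP.and ?_ ?_
      · exact (sap_Rk G k).preimage (φ := fun (u : Option (Option α) → ℝ) =>
          ext (u none) (fun i => u (some (some i)))) (ext_PF (fun i => PF.coord _) (PF.coord _))
      · exact hp.congr fun u => by rw [ext_self]
    · constructor
      · rintro ⟨h1, h2⟩
        exact ⟨_, rt_spec h1, h2⟩
      · rintro ⟨s, h1, h2⟩
        refine ⟨⟨s, h1⟩, ?_⟩
        rwa [← rt_eq h1]
  have hne : ∀ v z, z ∈ zset G v → ∀ k, ∀ t, Rk G k v t → z < t → ∃ k', Rk G k' v z := by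
    intro v z hz k t _ _
    obtain ⟨k', -, h⟩ := exists_Rk hz
    exact ⟨k', h⟩
  -- the points
  have c1 : ∀ k, SAP (fun w : Option α → ℝ => (fun i => w (some i)) ∈ {v | ∃ t, Rk G k v t} ∧
      w none ∈ ({rt G k (fun i => w (some i))} : Set ℝ) ∧ w ∈ W) := by
    intro k
    have hgr : SAP (fun w : Option α → ℝ => (fun i => w (some i)) ∈ {v | ∃ t, Rk G k v t} ∧
        w none = rt G k (fun i => w (some i))) :=
      hrt k (fun u => u (some none) = u none) (SAP.eq (PF.coord _) (PF.coord _))
    exact cell (D := {v | ∃ t, Rk G k v t}) (s := rt G k) (I := fun v => {rt G k v})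
      IH hV hWV hLC (pc_rt G k) hgr hgr (fun v _ => mem_singleton _)
      (fun v _ => ordConnected_singleton) (fun v _ t ht t' ht' h => by
        rw [mem_singleton_iff] at ht ht'
        rw [ht']
        rwa [ht] at h)
  -- no zeros at all
  have c2 : SAP (fun w : Option α → ℝ =>
      (fun i => w (some i)) ∈ {v : α → ℝ | ∀ t, t ∉ zset G v} ∧
      w none ∈ (univ : Set ℝ) ∧ w ∈ W) := by
    have hD : SAP (fun w : Option α → ℝ => ∀ t, t ∉ zset G (fun i => w (some i))) := by
      refine SAP.forall' (p := fun (w : Option α → ℝ) t => t ∉ zset G (fun i => w (some i))) ?_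
      exact (SAP.mem_zset G (fun i => PF.coord (some (some i))) (PF.coord none)).not
    refine cell (D := {v : α → ℝ | ∀ t, t ∉ zset G v}) (s := fun _ => 0) (I := fun _ => univ)
      IH hV hWV hLC (PC.of_cont continuous_const) ?_ ?_ (fun v _ => trivial)
      (fun v _ => ordConnected_univ) (fun v hv => hVc v univ ordConnected_univ
        fun z hz => absurd hz (hv z))
    · exact hD.and (SAP.eq (PF.coord _) PF.zero)
    · exact hD.and (SAP.const _)
  -- below the first zero
  have c3 : SAP (fun w : Option α → ℝ => (fun i => w (some i)) ∈ {v | ∃ t, Rk G 0 v t} ∧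
      w none ∈ Iio (rt G 0 (fun i => w (some i))) ∧ w ∈ W) := by
    refine cell (D := {v | ∃ t, Rk G 0 v t}) (s := fun v => rt G 0 v - 1)
      (I := fun v => Iio (rt G 0 v)) IH hV hWV hLC
      ((pc_rt G 0).map₂ (pc_rt G 0) (f := fun p => p.1 - 1) (by fun_prop)) ?_ ?_ ?_
      (fun v _ => ordConnected_Iio) ?_
    · exact hrt 0 (fun u => u (some none) = u none - 1)
        (SAP.eq (PF.coord _) ((PF.coord _).sub PF.one))
    · exact hrt 0 (fun u => u (some none) < u none) (SAP.lt (PF.coord _) (PF.coord _))
    · intro v _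
      simp
    · intro v hv
      refine hVc v _ ordConnected_Iio fun z hz hzI => ?_
      have := (rt_spec hv).2 z hz
      have := mem_Iio.1 hzI
      linarith
  -- between two zeros
  have c4 : ∀ k, SAP (fun w : Option α → ℝ =>
      (fun i => w (some i)) ∈ {v | (∃ t, Rk G k v t) ∧ ∃ t, Rk G (k + 1) v t} ∧
      w none ∈ Ioo (rt G k (fun i => w (some i))) (rt G (k + 1) (fun i => w (some i))) ∧
        w ∈ W) := by
    intro k
    have hlt : ∀ v : α → ℝ, (∃ t, Rk G k v t) → (∃ t, Rk G (k + 1) v t) →
        rt G k v < rt G (k + 1) v ∧ ∀ z ∈ zset G v, rt G k v < z → rt G (k + 1) v ≤ z := by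
      intro v h1 h2
      obtain ⟨-, s, hs, h3, h4⟩ := rt_spec h2
      rw [← rt_eq hs]
      exact ⟨h3, fun z hz => h4 z hz⟩
    have hrt2 : ∀ p : (Option (Option (Option α)) → ℝ) → Prop, SAP p →
        SAP (fun w : Option α → ℝ =>
          (fun i => w (some i)) ∈ {v | (∃ t, Rk G k v t) ∧ ∃ t, Rk G (k + 1) v t} ∧
          p (ext (rt G (k + 1) (fun i => w (some i))) (ext (rt G k (fun i => w (some i))) w))) := by
      intro p hp
      have h1 : SAP (fun u : Option (Option α) → ℝ =>
          (∃ t, Rk G (k + 1) (fun i => u (some (some i))) t) ∧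
          p (ext (rt G (k + 1) (fun i => u (some (some i)))) u)) := by
        refine SAP.congr (SAP.exists' (p := fun (u : Option (Option α) → ℝ) s =>
          Rk G (k + 1) (fun i => u (some (some i))) s ∧ p (ext s u)) ?_) fun w => ?_
        · refine SAP.and ?_ ?_
          · exact (sap_Rk G (k + 1)).preimage (φ := fun (u : Option (Option (Option α)) → ℝ) =>
              ext (u none) (fun i => u (some (some (some i)))))
              (ext_PF (fun i => PF.coord _) (PF.coord _))
          · exact hp.congr fun u => by rw [ext_self]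
        · constructor
          · rintro ⟨h1, h2⟩
            exact ⟨_, rt_spec h1, h2⟩
          · rintro ⟨s, h1, h2⟩
            refine ⟨⟨s, h1⟩, ?_⟩
            rwa [← rt_eq h1]
      refine (hrt k _ h1).congr fun w => ?_
      constructor
      · rintro ⟨⟨h2, h3⟩, h4⟩
        exact ⟨h2, h3, h4⟩
      · rintro ⟨h2, h3, h4⟩
        exact ⟨⟨h2, h3⟩, h4⟩
    refine cell (D := {v | (∃ t, Rk G k v t) ∧ ∃ t, Rk G (k + 1) v t})
      (s := fun v => (rt G k v + rt G (k + 1) v) * ((1 / 2 : ℚ) : ℝ))
      (I := fun v => Ioo (rt G k v) (rt G (k + 1) v)) IH hV hWV hLC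
      (((pc_rt G k).mono fun v hv => hv.1).map₂ ((pc_rt G (k + 1)).mono fun v hv => hv.2)
        (f := fun p => (p.1 + p.2) * ((1 / 2 : ℚ) : ℝ)) (by fun_prop)) ?_ ?_ ?_
      (fun v _ => ordConnected_Ioo) ?_
    · exact hrt2 (fun u => u (some (some none)) = (u (some none) + u none) * ((1 / 2 : ℚ) : ℝ))
        (SAP.eq (PF.coord _) (((PF.coord _).add (PF.coord _)).mul (PF.const _)))
    · exact hrt2 (fun u => u (some none) < u (some (some none)) ∧ u (some (some none)) < u none)
        ((SAP.lt (PF.coord _) (PF.coord _)).and (SAP.lt (PF.coord _) (PF.coord _)))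
    · intro v hv
      have := (hlt v hv.1 hv.2).1
      constructor
      · push_cast; linarith
      · push_cast; linarith
    · intro v hv
      refine hVc v _ ordConnected_Ioo fun z hz hzI => ?_
      have := (hlt v hv.1 hv.2).2 z hz hzI.1
      linarith [hzI.2]
  -- above the last zero
  have c5 : ∀ k, SAP (fun w : Option α → ℝ =>
      (fun i => w (some i)) ∈ {v | (∃ t, Rk G k v t) ∧ ∀ z, z ∈ zset G v → z ≤ rt G k v} ∧
      w none ∈ Ioi (rt G k (fun i => w (some i))) ∧ w ∈ W) := by
    intro k
    have hrt3 : ∀ p : (Option (Option α) → ℝ) → Prop, SAP p →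
        SAP (fun w : Option α → ℝ => (fun i => w (some i)) ∈
          {v | (∃ t, Rk G k v t) ∧ ∀ z, z ∈ zset G v → z ≤ rt G k v} ∧
          p (ext (rt G k (fun i => w (some i))) w)) := by
      intro p hp
      have h1 : SAP (fun u : Option (Option α) → ℝ =>
          (∀ z, z ∈ zset G (fun i => u (some (some i))) → z ≤ u none) ∧ p u) := by
        refine SAP.and ?_ hp
        refine SAP.forall' (p := fun (u : Option (Option α) → ℝ) z =>
          z ∈ zset G (fun i => u (some (some i))) → z ≤ u none) ?_
        exact (SAP.mem_zset G (fun i => PF.coord (some (some (some i)))) (PF.coord none)).imp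
          (SAP.le (PF.coord _) (PF.coord _))
      refine (hrt k _ h1).congr fun w => ?_
      constructor
      · rintro ⟨⟨h2, h3⟩, h4⟩
        exact ⟨h2, h3, h4⟩
      · rintro ⟨h2, h3, h4⟩
        exact ⟨⟨h2, h3⟩, h4⟩
    refine cell (D := {v | (∃ t, Rk G k v t) ∧ ∀ z, z ∈ zset G v → z ≤ rt G k v})
      (s := fun v => rt G k v + 1) (I := fun v => Ioi (rt G k v)) IH hV hWV hLC
      (((pc_rt G k).mono fun v hv => hv.1).map₂ ((pc_rt G k).mono fun v hv => hv.1)
        (f := fun p => p.1 + 1) (by fun_prop)) ?_ ?_ ?_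
      (fun v _ => ordConnected_Ioi) ?_
    · exact hrt3 (fun u => u (some none) = u none + 1)
        (SAP.eq (PF.coord _) ((PF.coord _).add PF.one))
    · exact hrt3 (fun u => u none < u (some none)) (SAP.lt (PF.coord _) (PF.coord _))
    · intro v _
      simp
    · intro v hv
      refine hVc v _ ordConnected_Ioi fun z hz hzI => ?_
      have := hv.2 z hz
      have := mem_Ioi.1 hzI
      linarith
  -- the union
  have hall := (SAP.exists_mem (Finset.range (bd G)) fun k _ => c1 k).or
    (c2.or (c3.or ((SAP.exists_mem (Finset.range (bd G)) fun k _ => c4 k).or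
      (SAP.exists_mem (Finset.range (bd G)) fun k _ => c5 k))))
  refine SAP.congr (q := fun w => w ∈ W) hall fun w => ?_
  set v : α → ℝ := fun i => w (some i) with hv
  constructor
  · intro hw
    by_cases htZ : w none ∈ zset G v
    · obtain ⟨k, hk, hR⟩ := exists_Rk htZ
      exact Or.inl ⟨k, Finset.mem_range.2 hk, ⟨_, hR⟩, rt_eq hR, hw⟩
    · by_cases hemp : ∀ t, t ∉ zset G v
      · exact Or.inr (Or.inl ⟨hemp, trivial, hw⟩)
      · push Not at hemp
        by_cases hbel : ∃ z ∈ zset G v, z < w none
        · -- the largest zero below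
          have hne1 : ((zset G v).filter (· < w none)).Nonempty := by
            obtain ⟨z, hz, hz2⟩ := hbel
            exact ⟨z, Finset.mem_filter.2 ⟨hz, hz2⟩⟩
          set s := ((zset G v).filter (· < w none)).max' hne1 with hs
          have hsm : s ∈ (zset G v).filter (· < w none) := Finset.max'_mem _ _
          obtain ⟨hsZ, hst⟩ := Finset.mem_filter.1 hsm
          have hsmax : ∀ u ∈ zset G v, u < w none → u ≤ s := fun u hu hut =>
            Finset.le_max' _ _ (Finset.mem_filter.2 ⟨hu, hut⟩)
          obtain ⟨k, hk, hR⟩ := exists_Rk hsZ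
          have hsr := rt_eq hR
          by_cases habo : ∃ z ∈ zset G v, w none < z
          · have hne2 : ((zset G v).filter (w none < ·)).Nonempty := by
              obtain ⟨z, hz, hz2⟩ := habo
              exact ⟨z, Finset.mem_filter.2 ⟨hz, hz2⟩⟩
            set u := ((zset G v).filter (w none < ·)).min' hne2 with hu
            have hum : u ∈ (zset G v).filter (w none < ·) := Finset.min'_mem _ _
            obtain ⟨huZ, hut⟩ := Finset.mem_filter.1 hum
            have humin : ∀ z ∈ zset G v, w none < z → u ≤ z := fun z hz hzt =>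
              Finset.min'_le _ _ (Finset.mem_filter.2 ⟨hz, hzt⟩)
            have hR' : Rk G (k + 1) v u := by
              refine ⟨huZ, s, hR, hst.trans hut, fun z hz hsz => ?_⟩
              rcases lt_trichotomy z (w none) with h1 | h1 | h1
              · have := hsmax z hz h1
                linarith
              · rw [h1] at hz
                exact absurd hz htZ
              · exact humin z hz h1
            have hur := rt_eq hR'
            refine Or.inr (Or.inr (Or.inr (Or.inl ⟨k, Finset.mem_range.2 hk,
              ⟨⟨_, hR⟩, ⟨_, hR'⟩⟩, ⟨?_, ?_⟩, hw⟩)))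
            · rw [← hsr]; exact hst
            · rw [← hur]; exact hut
          · push Not at habo
            refine Or.inr (Or.inr (Or.inr (Or.inr ⟨k, Finset.mem_range.2 hk,
              ⟨⟨_, hR⟩, fun z hz => ?_⟩, ?_, hw⟩)))
            · rw [← hsr]
              rcases lt_or_eq_of_le (habo z hz) with h1 | h1
              · exact hsmax z hz h1
              · rw [h1] at hz
                exact absurd hz htZ
            · change rt G k v < w none
              rw [← hsr]
              exact hst
        · push Not at hbel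
          obtain ⟨z₀, hz₀⟩ := hemp
          have hne3 : (zset G v).Nonempty := ⟨z₀, hz₀⟩
          have hR : Rk G 0 v ((zset G v).min' hne3) :=
            ⟨Finset.min'_mem _ _, fun s hs => Finset.min'_le _ _ hs⟩
          refine Or.inr (Or.inr (Or.inl ⟨⟨_, hR⟩, ?_, hw⟩))
          change w none < rt G 0 v
          rw [← rt_eq hR]
          refine lt_of_le_of_ne (hbel _ hR.1) fun h => htZ ?_
          rw [h]
          exact hR.1
  · rintro (⟨k, -, -, -, h⟩ | ⟨-, -, h⟩ | ⟨-, -, h⟩ | ⟨k, -, -, -, h⟩ | ⟨k, -, -, -, h⟩) <;> exact h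

/-- **Relatively clopen subsets of semialgebraic sets over `ℚ` are semialgebraic over `ℚ`.** -/
theorem sa_of_lc (ι : Type) [Finite ι] : St ι := by
  induction ι using Finite.induction_empty_option with
  | of_equiv e h =>
    intro V W hV hWV hLC
    refine SA.reindex e (h _ _ ?_ (preimage_mono hWV) ?_)
    · exact SA.preimage hV (fun b => PF.coord (e.symm b))
    · refine hLC.comp ?_ fun v hv => hv
      exact (continuous_pi fun b => continuous_apply (e.symm b)).continuousOn
  | h_empty =>
    intro V W _ _ _
    refine ⟨∅, fun v w _ hv => ?_⟩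
    have : v = w := Subsingleton.elim _ _
    rwa [← this]
  | h_option h => exact st_option h

end Pool.Agent.TH729.SQ
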