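import Mathlib

/-!
# A form of Thom's lemma, and locally constant membership (helper729)
-/

set_option autoImplicit false

namespace Pool.Agent.TH729.SQ

open Polynomial Set Filter Topology

/-- `b` has weakly the sign of `a` -/
def Wk (a b : ℝ) : Prop := (a = 0 → b = 0) ∧ 0 ≤ a * b

lemma mvt (g : ℝ[X]) {a b : ℝ} (hab : a < b) :
    ∃ c ∈ Ioo a b, g.eval b - g.eval a = (derivative g).eval c * (b - a) := by
  obtain ⟨c, hc, h⟩ := exists_hasDerivAt_eq_slope (fun x => g.eval x)
    (fun x => (derivative g).eval x) hab g.continuous.continuousOn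
    (fun x _ => g.hasDerivAt x)
  refine ⟨c, hc, ?_⟩
  have : b - a ≠ 0 := by linarith
  field_simp at h
  linarith

lemma thom_aux {f : ℝ[X]} {s t : ℝ} (hst : s < t)
    (h : ∀ j : ℕ, Wk ((derivative^[j] f).eval s) ((derivative^[j] f).eval t)) :
    ∀ n j : ℕ, f.natDegree < j + n → ∀ u ∈ Ico s t,
      SignType.sign ((derivative^[j] f).eval u) = SignType.sign ((derivative^[j] f).eval s) := by
  intro n
  induction n with
  | zero =>
    intro j hj u _
    rw [Polynomial.iterate_derivative_eq_zero (by omega)]
    simp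
  | succ n ih =>
    intro j hj u hu
    have ih' := ih (j + 1) (by omega)
    set g := derivative^[j] f with hg
    have hg' : derivative^[j + 1] f = derivative g := by
      rw [Function.iterate_succ_apply']
    rw [hg'] at ih'
    rcases eq_or_lt_of_le hu.1 with rfl | hsu
    · rfl
    have key : ∀ a b, s ≤ a → a < b → b ≤ t →
        ∃ e, SignType.sign e = SignType.sign ((derivative g).eval s) ∧
          g.eval b - g.eval a = e * (b - a) := by
      intro a b ha hab hb
      obtain ⟨c, hc, hc'⟩ := mvt g hab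
      exact ⟨_, ih' c ⟨by linarith [hc.1], by linarith [hc.2]⟩, hc'⟩
    obtain ⟨e1, he1, h1⟩ := key s u le_rfl hsu hu.2.le
    obtain ⟨e2, he2, h2⟩ := key u t hu.1 hu.2 le_rfl
    obtain ⟨e3, he3, h3⟩ := key s t le_rfl hst le_rfl
    have hj := h j
    rw [← hg] at hj
    obtain ⟨hj1, hj2⟩ := hj
    have p1 : 0 < u - s := by linarith
    have p2 : 0 < t - u := by linarith [hu.2]
    have p3 : 0 < t - s := by linarith
    rcases lt_trichotomy ((derivative g).eval s) 0 with hd | hd | hd
    · rw [sign_neg hd, sign_eq_neg_one_iff] at he1 he2 he3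
      have q1 : e1 * (u - s) < 0 := mul_neg_of_neg_of_pos he1 p1
      have q2 : e2 * (t - u) < 0 := mul_neg_of_neg_of_pos he2 p2
      have q3 : e3 * (t - s) < 0 := mul_neg_of_neg_of_pos he3 p3
      rcases lt_trichotomy (g.eval s) 0 with hs | hs | hs
      · rw [sign_neg hs, sign_neg (by linarith)]
      · have := hj1 hs
        linarith
      · have ht : 0 ≤ g.eval t := by
          by_contra hn
          push Not at hn
          have := mul_neg_of_pos_of_neg hs hn
          linarith
        rw [sign_pos hs, sign_pos (by linarith)]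
    · rw [hd, sign_zero, sign_eq_zero_iff] at he1
      rw [he1, zero_mul] at h1
      have : g.eval u = g.eval s := by linarith
      rw [this]
    · rw [sign_pos hd, sign_eq_one_iff] at he1 he2 he3
      have q1 : 0 < e1 * (u - s) := mul_pos he1 p1
      have q2 : 0 < e2 * (t - u) := mul_pos he2 p2
      have q3 : 0 < e3 * (t - s) := mul_pos he3 p3
      rcases lt_trichotomy (g.eval s) 0 with hs | hs | hs
      · have ht : g.eval t ≤ 0 := by
          by_contra hn
          push Not at hn
          have := mul_neg_of_neg_of_pos hs hn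
          linarith
        rw [sign_neg hs, sign_neg (by linarith)]
      · have := hj1 hs
        linarith
      · rw [sign_pos hs, sign_pos (by linarith)]

lemma thom_lt {f : ℝ[X]} (hf : f ≠ 0) {s t : ℝ} (h0 : f.eval s = 0)
    (h : ∀ j : ℕ, Wk ((derivative^[j] f).eval s) ((derivative^[j] f).eval t)) : ¬s < t := by
  intro hst
  have h1 := thom_aux hst h (f.natDegree + 1) 0 (by omega)
  simp only [Function.iterate_zero, id_eq, h0, sign_zero, sign_eq_zero_iff] at h1
  apply hf
  refine Polynomial.eq_zero_of_infinite_isRoot f ?_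
  exact (Set.Ico_infinite hst).mono fun u hu => h1 u hu

lemma iter_neg (f : ℝ[X]) (j : ℕ) :
    derivative^[j] (f.comp (-X)) = (-1) ^ j * (derivative^[j] f).comp (-X) := by
  induction j with
  | zero => simp
  | succ j ih =>
    rw [Function.iterate_succ_apply', ih, Function.iterate_succ_apply']
    have : ((-1 : ℝ[X]) ^ j) = C ((-1) ^ j) := by simp
    rw [this, derivative_C_mul, derivative_comp]
    simp only [derivative_neg, derivative_X, pow_succ, map_mul, map_neg, map_one]
    rw [this]
    ring

/-- **Thom's lemma**, the form used here. -/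
theorem thom {f : ℝ[X]} (hf : f ≠ 0) {s t : ℝ} (h0 : f.eval s = 0)
    (h : ∀ j : ℕ, Wk ((derivative^[j] f).eval s) ((derivative^[j] f).eval t)) : t = s := by
  rcases lt_trichotomy s t with hst | hst | hst
  · exact absurd hst (thom_lt hf h0 h)
  · exact hst.symm
  · exfalso
    have hf' : f.comp (-X) ≠ 0 := by
      intro h1
      apply hf
      have h2 : (f.comp (-X)).comp (-X) = f := by
        rw [Polynomial.comp_assoc]
        simp
      rw [← h2, h1, zero_comp]
    refine thom_lt hf' (s := -s) (t := -t) (by simp [h0]) (fun j => ?_) (by linarith)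
    rw [iter_neg]
    obtain ⟨h1, h2⟩ := h j
    have e : ∀ u : ℝ, ((-1 : ℝ[X]) ^ j * (derivative^[j] f).comp (-X)).eval (-u) =
        (-1) ^ j * (derivative^[j] f).eval u := by
      intro u
      simp
    rw [e, e]
    have hsq : ((-1 : ℝ) ^ j) * (-1) ^ j = 1 := by
      rw [← mul_pow]; simp
    refine ⟨fun h3 => ?_, ?_⟩
    · have h4 : (derivative^[j] f).eval s = 0 := by
        rcases mul_eq_zero.1 h3 with h5 | h5
        · exact absurd h5 (pow_ne_zero _ (by norm_num))
        · exact h5
      rw [h1 h4, mul_zero]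
    · calc (0 : ℝ) ≤ (derivative^[j] f).eval s * (derivative^[j] f).eval t := h2
        _ = ((-1 : ℝ) ^ j * (-1) ^ j) * ((derivative^[j] f).eval s * (derivative^[j] f).eval t) := by
            rw [hsq, one_mul]
        _ = _ := by ring

/-- membership in `W` is locally constant on `V` -/
def LC {X : Type*} [TopologicalSpace X] (V W : Set X) : Prop :=
  ∀ x ∈ V, ∀ᶠ y in 𝓝[V] x, (y ∈ W ↔ x ∈ W)

lemma LC.constant {X : Type*} [TopologicalSpace X] {V W : Set X} (h : LC V W) {I : Set X}
    (hI : IsPreconnected I) (hIV : I ⊆ V) {x y : X} (hx : x ∈ I) (hy : y ∈ I) :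
    x ∈ W ↔ y ∈ W := by
  classical
  let f : X → Bool := fun z => decide (z ∈ W)
  have hf : ContinuousOn f I := by
    intro z hz
    have h1 := (h z (hIV hz)).filter_mono (nhdsWithin_mono z hIV)
    refine (continuousWithinAt_const (b := f z)).congr_of_eventuallyEq ?_ rfl
    filter_upwards [h1] with w hw
    simp only [f, hw]
  have := hI.constant hf hx hy
  simpa [f] using this

lemma LC.comp {X Y : Type*} [TopologicalSpace X] [TopologicalSpace Y] {V W : Set Y} (h : LC V W)
    {A : Set X} {f : X → Y} (hf : ContinuousOn f A) (hfV : MapsTo f A V) : LC A (f ⁻¹' W) := by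
  intro x hx
  exact ((hf x hx).tendsto_nhdsWithin hfV).eventually (h (f x) (hfV hx))

lemma LC.mono {X : Type*} [TopologicalSpace X] {V W A : Set X} (h : LC V W) (hA : A ⊆ V) :
    LC A W := fun x hx => (h x (hA hx)).filter_mono (nhdsWithin_mono x hA)

/-- relatively clopen sets -/
lemma LC.of_clopen {X : Type*} [TopologicalSpace X] {V W O C : Set X} (hO : IsOpen O)
    (hC : IsClosed C) (h1 : ∀ x ∈ V, x ∈ W ↔ x ∈ O) (h2 : ∀ x ∈ V, x ∈ W ↔ x ∈ C) : LC V W := by
  intro x hx
  by_cases hxW : x ∈ W
  · have := nhdsWithin_le_nhds (s := V) (hO.mem_nhds ((h1 x hx).1 hxW))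
    filter_upwards [this, self_mem_nhdsWithin] with y hy hyV
    exact ⟨fun _ => hxW, fun _ => (h1 y hyV).2 hy⟩
  · have := nhdsWithin_le_nhds (s := V) (hC.isOpen_compl.mem_nhds (fun h => hxW ((h2 x hx).2 h)))
    filter_upwards [this, self_mem_nhdsWithin] with y hy hyV
    exact ⟨fun hyW => absurd ((h2 y hyV).1 hyW) hy, fun h => absurd h hxW⟩

end Pool.Agent.TH729.SQ
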